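import Pool.Agent.Q173.KS.Stm

set_option autoImplicit false

namespace Pool.Agent.Q162.KS

open Pool.Agent.Q173.KS Finset

theorem trans : S_TRANS := by
  intro α β _ _ e k m ⟨ℓ, hok, huni, hlen⟩
  refine ⟨ℓ.map (Op.map e.toEmbedding), hok.map e.toEmbedding, ?_, by simpa using hlen⟩
  intro j hj F x y hx hy
  have key : ∀ z : Fin j → β,
      EP (ℓ.map (Op.map e.toEmbedding)) (fun σ => F (fun i => σ (z i))) =
        EP ℓ (fun σ => F (fun i => e (σ (e.symm (z i))))) := by
    intro z
    have h := EP_map e.toEmbedding ℓ (fun σ => F (fun i => σ (z i)))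
    rw [h]
    congr 1
    funext σ
    congr 1
    funext i
    obtain ⟨a, ha⟩ := e.surjective (z i)
    rw [← ha, e.symm_apply_apply]
    exact Equiv.Perm.viaEmbedding_apply σ e.toEmbedding a
  rw [key, key]
  exact huni j hj (fun t => F (fun i => e (t i))) (fun i => e.symm (x i)) (fun i => e.symm (y i))
    (e.symm.injective.comp hx) (e.symm.injective.comp hy)

end Pool.Agent.Q162.KS
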